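import Pool.Agent.Work.MP_90c2fd_co.Hedge.Main

set_option autoImplicit false

namespace Pool.Agent.Results.MP_90c2fd_co.InducedThreshold

open Pool.Agent.Work.MP_90c2fd_co

/-- For every finite graph `H`, `c ≥ 2` and rational `α > 2`: all large Kneser graphs `KG(α k, k)`
contain a monochromatic induced copy of `H` in every `c`-colouring of their edges iff the
fractional chromatic number of `H` is less than `α`. -/
theorem result (W : Type) [Fintype W] (H : SimpleGraph W) (c : ℕ) (hc : 2 ≤ c) (α : ℚ)
    (hα : 2 < α) :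
    (∃ k₀ : ℕ, ∀ k : ℕ, k₀ ≤ k → ∀ m : ℕ, (m : ℚ) = α * (k : ℚ) →
      IndArrows (kneserGraph m k) H c) ↔ fracChrom H < (α : ℝ) :=
  threshold H c hc α hα

end Pool.Agent.Results.MP_90c2fd_co.InducedThreshold
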